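import Pool.Agent.J4.H1.ContrField

set_option autoImplicit false

/-! Idempotent matrices over group rings of arbitrary groups (torsion allowed) which are contractive
for weighted operator norms: over subfields of `ℂ` they are conjugate to diagonal matrices of the
idempotents of one-dimensional characters of finite subgroups, over arbitrary normed rings they are
conjugate to block diagonal matrices with blocks over finite subgroups. -/

namespace Pool.Agent.Results.MP_b6f35e_al.ContractiveMonomial

open MonoidAlgebra

universe u v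

/-- For every `c > 1` there are positive weights `p` such that the matrix of the `ℓ¹`-norms of the
entries of `E` maps `p` to a vector that is at most `c * p`. Here the size of a coefficient `x` is
`N x`. -/
def SubContractive {G R ι : Type*} [Group G] [Ring R] [Fintype ι] (N : R → ℝ)
    (E : Matrix ι ι (MonoidAlgebra R G)) : Prop :=
  ∀ c : ℝ, 1 < c → ∃ p : ι → ℝ, (∀ i, 0 < p i) ∧
    ∀ i, ∑ j, (∑ g ∈ (E i j).coeff.support, N ((E i j).coeff g)) * p j ≤ c * p i

/-- `x` is zero or the idempotent `|H|⁻¹ ∑ h ∈ H, ψ(h) h` of a one-dimensional character `ψ : H → Kˣ`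
of a finite subgroup `H` of `G`. -/
def IsCharIdem {G K : Type*} [Group G] [Field K] (x : MonoidAlgebra K G) : Prop :=
  x = 0 ∨ ∃ (H : Subgroup G) (_ : Fintype H) (ψ : H →* Kˣ),
    x = ∑ h : H, MonoidAlgebra.single (h : G) (((ψ h : Kˣ) : K) * (Fintype.card H : K)⁻¹)

/-- Let `G` be any group.

(1) Let `K` be a field, embedded in `ℂ`, and `E` an idempotent matrix over `KG`. If `E` has weighted
operator norms, on `ℓ¹` sums, with infimum at most `1`, then `E` is conjugate over `KG` to a diagonal
matrix whose entries are zero or the idempotents of one-dimensional characters (with values in `K`) of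
finite subgroups. If `1 - E` has such norms, then `E` is conjugate to the identity minus such a
diagonal matrix.

(2) Let `𝔸` be a normed ring (submultiplicative norm, not assumed complete) and `E` an idempotent
matrix over `𝔸G` such that `E` or `1 - E` has such norms. Then there are a partition of the index set
(into the fibres of `q`) and finite subgroups `H i` such that `E` is conjugate over `𝔸G` to an
idempotent matrix `F` which is block diagonal for the partition, the block of the class `c` having its
entries in `𝔸[H c]`. -/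
theorem result {G : Type*} [Group G] {ι : Type*} [Fintype ι] [DecidableEq ι] :
    (∀ (K : Type u) [Field K] (φ : K →+* ℂ) (E : Matrix ι ι (MonoidAlgebra K G)), E * E = E →
      (SubContractive (fun x : K => ‖φ x‖) E →
        ∃ (D : ι → MonoidAlgebra K G) (X : (Matrix ι ι (MonoidAlgebra K G))ˣ),
          (∀ i, IsCharIdem (D i)) ∧ E = X.val * Matrix.diagonal D * X⁻¹.val) ∧
      (SubContractive (fun x : K => ‖φ x‖) (1 - E) →
        ∃ (D : ι → MonoidAlgebra K G) (X : (Matrix ι ι (MonoidAlgebra K G))ˣ),
          (∀ i, IsCharIdem (D i)) ∧ E = X.val * (1 - Matrix.diagonal D) * X⁻¹.val)) ∧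
    ∀ (𝔸 : Type v) [NormedRing 𝔸] (E : Matrix ι ι (MonoidAlgebra 𝔸 G)), E * E = E →
      (SubContractive (fun x : 𝔸 => ‖x‖) E ∨ SubContractive (fun x : 𝔸 => ‖x‖) (1 - E)) →
      ∃ (q : ι → ι) (H : ι → Subgroup G) (F : Matrix ι ι (MonoidAlgebra 𝔸 G))
        (X : (Matrix ι ι (MonoidAlgebra 𝔸 G))ˣ), (∀ c, Finite (H c)) ∧ F * F = F ∧
        (∀ i j g, (F i j).coeff g ≠ 0 → q i = q j ∧ g ∈ H (q i)) ∧
        E = X.val * F * X⁻¹.val := by
  constructor
  · intro K _ φ
    let inst : NormedField K := NormedField.induced K ℂ φ φ.injective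
    have main : ∀ E : Matrix ι ι (MonoidAlgebra K G), E * E = E →
        SubContractive (fun x : K => ‖φ x‖) E →
        ∃ (D : ι → MonoidAlgebra K G) (X : (Matrix ι ι (MonoidAlgebra K G))ˣ),
          (∀ i, IsCharIdem (D i)) ∧ E = X.val * Matrix.diagonal D * X⁻¹.val :=
      fun E hE hM => Pool.Agent.J4.H1.ContrTor.contr_field φ (fun _ => rfl) E hE hM
    intro E hE
    refine ⟨main E hE, fun hM => ?_⟩
    have h1 : (1 - E) * (1 - E) = 1 - E := by
      have : (1 - E) * (1 - E) = 1 - E - E + E * E := by noncomm_ring
      rw [this, hE]; abel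
    obtain ⟨D, X, hD, hX⟩ := main (1 - E) h1 hM
    refine ⟨D, X, hD, ?_⟩
    rw [mul_sub, sub_mul, mul_one, Units.mul_inv, ← hX, sub_sub_cancel]
  · intro 𝔸 _ E hE hM
    rcases hM with hM | hM
    · exact Pool.Agent.J4.H1.ContrTor.contr_blocks E hE hM
    · have h1 : (1 - E) * (1 - E) = 1 - E := by
        have : (1 - E) * (1 - E) = 1 - E - E + E * E := by noncomm_ring
        rw [this, hE]; abel
      obtain ⟨q, H, F, X, hH, hFF, hF, hX⟩ :=
        Pool.Agent.J4.H1.ContrTor.contr_blocks (1 - E) h1 hM
      refine ⟨q, H, 1 - F, X, hH, ?_, ?_, ?_⟩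
      · have : (1 - F) * (1 - F) = 1 - F - F + F * F := by noncomm_ring
        rw [this, hFF]; abel
      · intro i j g hg
        classical
        by_cases h2 : (F i j).coeff g = 0
        · rw [Matrix.sub_apply, MonoidAlgebra.coeff_sub, Finsupp.sub_apply, h2, sub_zero,
            Pool.Agent.J4.H1.Balanced.coeff_one_mat] at hg
          have h3 : i = j ∧ g = 1 := by
            by_contra h4
            rw [if_neg h4] at hg
            exact hg rfl
          rw [h3.1, h3.2]
          exact ⟨rfl, Subgroup.one_mem _⟩
        · exact hF i j g h2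
      · rw [mul_sub, sub_mul, mul_one, Units.mul_inv, ← hX, sub_sub_cancel]

end Pool.Agent.Results.MP_b6f35e_al.ContractiveMonomial
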