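import Pool.Agent.J4.H1.RG.GpAsc

/-!
# The Farrell-Jones class is closed under extensions whose kernels are graph products

`C` is any class of groups with the closure properties `ClosedE C` (it contains `ℤ` and is closed under
subgroups, finite products, free products, overgroups of finite index, directed colimits and satisfies the
extension criterion) which contains the groups `F ⋊ ℤ`, `F` free, and the metabelian groups. All this is known
for the class of the groups whose wreath products with finite groups satisfy the K- and L-theoretic
Farrell-Jones conjecture with coefficients (the last two by theorems of Bestvina-Fujiwara-Wigglesworth and of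
Wegner).

Let `N` be a normal subgroup of a group `G` such that `G / N` is in `C`.

* (1) If `N` is a graph product over a finite graph of finite groups and of finitely generated abelian
  groups, or has such a subgroup of finite index, then `G` is in `C`.
* (2) More generally `G` is in `C` if `N` is reached from `1` by an ascending, possibly transfinite, series of
  normal subgroups of `G` whose factors are as in (1), or free-by-solvable (some term of the derived series is
  a free group of any rank), or locally finite.

So `N` may be any finitely generated right-angled Coxeter group. There is no condition on the action of `G` on
`N`: the elements of `G` need not permute the conjugacy classes of the vertex groups (transvections and partial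
conjugations are allowed). For instance all mapping tori of automorphisms of these groups and all extensions
of such groups by each other are in `C`. If all vertex groups are free abelian, `N` is a right-angled Artin group;
this case is a theorem of Brück, Kielak and Wu, for which another proof is given here.

Outline of the proof of (1). By the classification of the finitely generated abelian groups all vertex groups
may be taken finite or infinite cyclic. The proof is by induction on the number of the vertices.

* A finite subgroup of a graph product is conjugate to a subgroup of the product of the vertex groups of a
  clique. So `N` has finitely many conjugacy classes of finite subgroups (`Tors`, `TorsFin`), and a subgroup of finite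
  index of `G` which contains `N` maps each finite vertex group `A v` to a conjugate of `A v` by an element of `N`
  (`fi_class`). Then the normal closure `K` of `A v` in `N` is normal in this subgroup, it is the free product
  of conjugates of `A v` (`Q30.FJ.Rel.kernel` of the starting library), and the theorem on free product
  kernels `Q30.FJ.fp` of the starting library can be applied to it, since the conjugations of a finite group
  are realized in its symmetric group. `N / K` is the graph product without the vertex `v` (`one_vertex`).
* If all vertex groups are infinite cyclic, `N` is a right-angled Artin group `A_Γ`. Let `v` be a vertex of maximal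
  degree `Δ`, let `c` be the set of the vertices `w` with `lk w = lk v` or `st w = st v`, and let `K` be the normal
  closure of `c` in `A_Γ`. If `g ≠ 1` and the image of the centralizer of `g` in the rational abelianization has dimension
  at least `Δ + 1`, then `g` is conjugate to an element of the subgroup generated by vertices of degree `Δ` that
  belong to a single class `c` (`Cent`, `Lin`, `Struct`). It follows that the automorphisms of `A_Γ` permute the
  subgroups `K` of the classes of the vertices of maximal degree (`Auto`). So the normalizer of `K` in `G` has
  finite index; `[K, K]` is free (`Ker`), and `A_Γ / K` is the right-angled Artin group of `Γ - c`.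

In (1) for a subgroup `R` of finite index in `N`, the normalizer of `R` in `G` has finite index since `N` is
finitely generated (`Virt`). In (2) one uses directed colimits and Zorn's lemma (`Asc`), and that the terms of the
derived series are characteristic (`Fs`).
-/

set_option autoImplicit false

namespace Pool.Agent.Results.MP_b6f35e_al.GraphProductKernels

open Pool.Agent.Y110.FJ (ClosedE)
open Pool.Agent.J4.H1.RG (VGp GpFactor)

theorem result (C : ∀ (G : Type) [Group G], Prop) (hC : ClosedE C)
    (hF : ∀ (X : Type) (α : MulAut (FreeGroup X)),
      C (FreeGroup X ⋊[zpowersHom (MulAut (FreeGroup X)) α] Multiplicative ℤ))
    (hM : ∀ (G : Type) [Group G], derivedSeries G 2 = ⊥ → C G)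
    (G : Type) [Group G] (N : Subgroup G) [N.Normal] (hQ : C (G ⧸ N)) :
    (VGp N → C G) ∧
    (∀ 𝒮 : Set (Subgroup G), (∀ M ∈ 𝒮, M.Normal ∧ M ≤ N) → ⊥ ∈ 𝒮 →
      (∀ c : Set (Subgroup G), c ⊆ 𝒮 → c.Nonempty → IsChain (· ≤ ·) c → sSup c ∈ 𝒮) →
      (∀ M ∈ 𝒮, ∀ _ : M.Normal, M ≠ N → ∃ M' ∈ 𝒮, M < M' ∧
        GpFactor ↥(M'.map (QuotientGroup.mk' M))) →
      C G) :=
  ⟨fun h => Pool.Agent.J4.H1.RG.vgp_ext hC hF hM N h hQ,
    fun 𝒮 h1 h2 h3 h4 => Pool.Agent.J4.H1.RG.asc_gp hC hF hM N hQ 𝒮 h1 h2 h3 h4⟩

end Pool.Agent.Results.MP_b6f35e_al.GraphProductKernels
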