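import Pool.Agent.J4.H1.GA.Main

/-!
# Multiple HNN extensions of Artin groups along partial symmetries of the diagram

Project GA of helper1 with helpers 10 (CVX), 30 (PRES, ACT), 54 (HEL), 66 (PATH); it uses the projects AR and AX
of helper1 (with helpers 7, 20, 25, 30, 40, 42, 43, 55, 81, 87).

`Sh M p` is the group with generators `s_b` (`b : B`, any set), the braid relations of the Coxeter matrix `M`
(the label `0` stands for infinity) and the relations `s_b ^ p_b = 1`; for `p = 0` it is the Artin group of
`M`, for `p = 2` the Coxeter group. `Adm M p`: the exponents are even and constant along the odd labels.

Let `R i` (`i : I`, any set) be bijections between subsets of `B` which preserve the labels and the exponents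
(`Par M p R`; the domains and the images are arbitrary and `R i` need not extend to an automorphism of the
diagram). `HN M p R` is the group generated by `Sh M p` and letters `t_i` with the relations
`t_i s_b t_i⁻¹ = s_c` whenever `R i b c`: the multiple HNN extension of `Sh M p` whose associated subgroups are
standard parabolic subgroups.

Theorem. Let `C` be a Farrell-Jones class which contains the finitely generated Coxeter groups. Then
`HN M p R` is in `C` if and only if `Sh M p` is in `C`.

Proof. The conjugates of the generators by the elements of the free group `F` on `I` are the generators of an
unfolded diagram, on which `F` acts: two of them are equal if the reduced word between them maps one to the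
other, and the label of two of them is finite only if they are generators of the same conjugate of `Sh M p`.
`HN M p R` is isomorphic to the semidirect product of the group of this diagram with `F` (`PRES`). By Helly's
theorem for the Cayley tree of `F` (`HEL`) a finite set of generators without infinite labels is contained in
one conjugate of `Sh M p`, so the group of the diagram is in `C` by the reduction theorem of project AR; the
semidirect product is in `C` by the extension theorem of project AX.
-/

set_option autoImplicit false

namespace Pool.Agent.Results.MP_b6f35e_al.PartialSymmetries

open Pool.Agent.K7.H87.FJ6
open Pool.Agent.Y110.FJ (ClosedE)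
open Pool.Agent.J4.H1.GA (Par HN)

theorem result (C : ∀ (G : Type) [Group G], Prop) (hC : ClosedE C)
    (hW : ∀ (B : Type) [Finite B] (M : CoxeterMatrix B), C M.Group) (B I : Type)
    (M : CoxeterMatrix B) (p : B → ℕ) (hp : Adm M p) (R : I → B → B → Prop) (hR : Par M p R) :
    C (HN M p R) ↔ C (Sh M p) := by
  classical
  exact Pool.Agent.J4.H1.GA.Main.main hC hW hp hR

end Pool.Agent.Results.MP_b6f35e_al.PartialSymmetries
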