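import Pool.Agent.J4.H1.Twist

set_option autoImplicit false

/-! Idempotent matrices over group algebras (torsion allowed) of an ordered field, whose coefficients
off the identity positions have a consistent sign: they come from finite subgroups. -/

namespace Pool.Agent.Results.MP_b6f35e_al.PositiveIdempotents

/-- Let `K` be an ordered field, `G` any group (with or without torsion), `χ : G → {±1}` a
homomorphism, `ε i` signs, and `E` an idempotent matrix over `KG`. If all numbers
`ε i ε j χ(g) E i j (g)` other than those with `i = j`, `g = 1` are nonnegative, then `E` is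
conjugate over `KG` to a diagonal matrix whose entries are zero or the averages
`|H|⁻¹ ∑ h ∈ H, χ(h) h` over finite subgroups `H` of `G`. If all of them are nonpositive, then `E`
is conjugate to the identity matrix minus such a diagonal matrix. -/
theorem result {K : Type*} [Field K] [LinearOrder K] [IsStrictOrderedRing K]
    {G : Type*} [Group G] {ι : Type*} [Fintype ι] [DecidableEq ι]
    (E : Matrix ι ι (MonoidAlgebra K G)) (hE : E * E = E) (χ : G →* ℤˣ) (ε : ι → ℤˣ) :
    ((∀ i j g, ¬ (i = j ∧ g = 1) →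
        0 ≤ (((ε i * ε j * χ g : ℤˣ) : ℤ) : K) * (E i j).coeff g) →
      ∃ (U : ι → Finset G) (X : (Matrix ι ι (MonoidAlgebra K G))ˣ),
        (∀ i, U i = ∅ ∨ ∃ H : Subgroup G, (H : Set G) = U i) ∧
        E = X.val * Matrix.diagonal (fun i => ∑ g ∈ U i,
          MonoidAlgebra.single g ((((χ g : ℤˣ) : ℤ) : K) * ((U i).card : K)⁻¹)) * X⁻¹.val) ∧
    ((∀ i j g, ¬ (i = j ∧ g = 1) →
        (((ε i * ε j * χ g : ℤˣ) : ℤ) : K) * (E i j).coeff g ≤ 0) →
      ∃ (U : ι → Finset G) (X : (Matrix ι ι (MonoidAlgebra K G))ˣ),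
        (∀ i, U i = ∅ ∨ ∃ H : Subgroup G, (H : Set G) = U i) ∧
        E = X.val * Matrix.diagonal (fun i => 1 - ∑ g ∈ U i,
          MonoidAlgebra.single g ((((χ g : ℤˣ) : ℤ) : K) * ((U i).card : K)⁻¹)) * X⁻¹.val) :=
  ⟨fun h => Pool.Agent.J4.H1.Positive.signed_positive_conj χ ε E hE h,
    fun h => Pool.Agent.J4.H1.Positive.signed_positive_conj' χ ε E hE h⟩

end Pool.Agent.Results.MP_b6f35e_al.PositiveIdempotents
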